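import Pool.Agent.Lib.MP_3e612f_nt.ZE.Defs

/-! Dual functions: measurability, shifts, inclusion, and (D1). -/

set_option autoImplicit false

namespace Pool.Agent.Lib.MP_3e612f_nt.ZE

open Finset MeasureTheory Filter Topology

section
variable {X : Type} [MeasurableSpace X] {m : Measure X} [IsProbabilityMeasure m] {τ : ℤ → X → X}

private theorem dbasic_avg (H : ℕ) (f : ℕ → ℕ → ℝ) (hf : ∀ a b, |f a b| ≤ 1) :
    |(∑ a ∈ range H, ∑ b ∈ range H, f a b) / (H : ℝ) ^ 2| ≤ 1 := by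
  have h1 : |∑ a ∈ range H, ∑ b ∈ range H, f a b| ≤ (H : ℝ) ^ 2 := by
    calc |∑ a ∈ range H, ∑ b ∈ range H, f a b|
        ≤ ∑ a ∈ range H, |∑ b ∈ range H, f a b| := Finset.abs_sum_le_sum_abs _ _
      _ ≤ ∑ a ∈ range H, ∑ b ∈ range H, |f a b| :=
          Finset.sum_le_sum fun a _ => Finset.abs_sum_le_sum_abs _ _
      _ ≤ ∑ a ∈ range H, ∑ b ∈ range H, (1 : ℝ) :=
          Finset.sum_le_sum fun a _ => Finset.sum_le_sum fun b _ => hf a b
      _ = (H : ℝ) ^ 2 := by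
          simp only [Finset.sum_const, Finset.card_range, nsmul_eq_mul, mul_one]
          ring
  rw [abs_div, abs_of_nonneg (sq_nonneg (H : ℝ))]
  exact div_le_one_of_le₀ h1 (sq_nonneg _)

private theorem dbasic_int {f : X → ℝ} (hf : Measurable f) (hb : ∀ x, |f x| ≤ 1) :
    Integrable f m :=
  Integrable.of_bound hf.aestronglyMeasurable 1 (Filter.Eventually.of_forall fun x => by
    rw [Real.norm_eq_abs]
    exact hb x)

private theorem dbasic_mul {a b : ℝ} (ha : |a| ≤ 1) (hb : |b| ≤ 1) : |a * b| ≤ 1 := by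
  rw [abs_mul]
  exact mul_le_one₀ ha (abs_nonneg _) hb

private theorem dbasic_comm (hτ : IsAct m τ) (a b : ℤ) (x : X) : τ a (τ b x) = τ b (τ a x) := by
  rw [← hτ.add, ← hτ.add, add_comm]

/-- induction on `k` -/
theorem dual_meas (hτ : IsAct m τ) (H k : ℕ) : ∀ d ∈ Dual τ H k, Measurable d ∧ ∀ x, |d x| ≤ 1 := by
  induction k with
  | zero =>
    rintro d ⟨F, hF, hb, rfl⟩
    refine ⟨?_, fun x => dbasic_avg H (fun a b => F (τ ((b : ℤ) - (a : ℤ)) x)) fun a b => hb _⟩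
    refine Measurable.div_const ?_ _
    refine Finset.measurable_sum _ fun a _ => Finset.measurable_sum _ fun b _ => ?_
    exact hF.comp (hτ.mp _).measurable
  | succ k ih =>
    rintro d ⟨F, e, hF, hb, he, rfl⟩
    refine ⟨?_, fun x => dbasic_avg H
      (fun a b => F (τ ((b : ℤ) - (a : ℤ)) x) * e a b (τ (-(a : ℤ)) x))
      fun a b => dbasic_mul (hb _) ((ih _ (he a b)).2 _)⟩
    refine Measurable.div_const ?_ _
    refine Finset.measurable_sum _ fun a _ => Finset.measurable_sum _ fun b _ => ?_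
    exact (hF.comp (hτ.mp _).measurable).mul ((ih _ (he a b)).1.comp (hτ.mp _).measurable)

/-- the maps `τ n` commute -/
theorem dual_shift (hτ : IsAct m τ) (H k : ℕ) (n : ℤ) : ∀ d ∈ Dual τ H k, (fun x => d (τ n x)) ∈ Dual τ H k := by
  induction k with
  | zero =>
    rintro d ⟨F, hF, hb, rfl⟩
    refine ⟨fun x => F (τ n x), hF.comp (hτ.mp n).measurable, fun x => hb _, ?_⟩
    funext x
    refine congrArg (fun t => t / (H : ℝ) ^ 2) ?_
    refine Finset.sum_congr rfl fun a _ => Finset.sum_congr rfl fun b _ => ?_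
    show F (τ ((b : ℤ) - (a : ℤ)) (τ n x)) = F (τ n (τ ((b : ℤ) - (a : ℤ)) x))
    rw [dbasic_comm hτ]
  | succ k ih =>
    rintro d ⟨F, e, hF, hb, he, rfl⟩
    refine ⟨fun x => F (τ n x), fun a b x => e a b (τ n x), hF.comp (hτ.mp n).measurable,
      fun x => hb _, fun a b => ih _ (he a b), ?_⟩
    funext x
    refine congrArg (fun t => t / (H : ℝ) ^ 2) ?_
    refine Finset.sum_congr rfl fun a _ => Finset.sum_congr rfl fun b _ => ?_
    show F (τ ((b : ℤ) - (a : ℤ)) (τ n x)) * e a b (τ (-(a : ℤ)) (τ n x)) =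
      F (τ n (τ ((b : ℤ) - (a : ℤ)) x)) * e a b (τ n (τ (-(a : ℤ)) x))
    rw [dbasic_comm hτ ((b : ℤ) - (a : ℤ)) n x, dbasic_comm hτ (-(a : ℤ)) n x]

/-- `F = 1`, `e a b = d ∘ τ a`; `H ≥ 1` -/
theorem dual_succ (hτ : IsAct m τ) (H k : ℕ) (hH : 1 ≤ H) : Dual τ H k ⊆ Dual τ H (k + 1) := by
  intro d hd
  refine ⟨fun _ => 1, fun a _ x => d (τ (a : ℤ) x), measurable_const,
    fun x => by rw [abs_one], fun a b => dual_shift hτ H k _ d hd, ?_⟩
  funext x
  have h1 : ∀ a ∈ range H, ∑ b ∈ range H, (1 : ℝ) * d (τ (a : ℤ) (τ (-(a : ℤ)) x)) =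
      (H : ℝ) * d x := by
    intro a _
    rw [← hτ.add, add_neg_cancel, hτ.zero, Finset.sum_const, Finset.card_range, nsmul_eq_mul,
      one_mul]
  show d x = (∑ a ∈ range H, ∑ b ∈ range H, (1 : ℝ) * d (τ (a : ℤ) (τ (-(a : ℤ)) x))) / (H : ℝ) ^ 2
  rw [Finset.sum_congr rfl h1, Finset.sum_const, Finset.card_range, nsmul_eq_mul]
  have h2 : (H : ℝ) ≠ 0 := by
    have : (1 : ℝ) ≤ (H : ℝ) := by exact_mod_cast hH
    linarith
  field_simp

private theorem dbasic_move (hτ : IsAct m τ) (a : ℤ) {f : X → ℝ} (hf : Measurable f) :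
    ∫ x, f (τ a x) ∂m = ∫ x, f x ∂m := by
  have h1 := MeasureTheory.integral_map (μ := m) (φ := τ a) (hτ.mp a).measurable.aemeasurable
    (f := f) (by rw [(hτ.mp a).map_eq]; exact hf.aestronglyMeasurable)
  rw [(hτ.mp a).map_eq] at h1
  exact h1.symm

private theorem dbasic_sum (H : ℕ) (f : ℕ → ℕ → X → ℝ) (hf : ∀ a b, Integrable (f a b) m) :
    (∑ a ∈ range H, ∑ b ∈ range H, ∫ x, f a b x ∂m) / (H : ℝ) ^ 2 =
      ∫ x, (∑ a ∈ range H, ∑ b ∈ range H, f a b x) / (H : ℝ) ^ 2 ∂m := by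
  rw [integral_div, integral_finset_sum _ (fun a _ => integrable_finset_sum _ fun b _ => hf a b)]
  refine congrArg (fun t => t / (H : ℝ) ^ 2) (Finset.sum_congr rfl fun a _ => ?_)
  rw [integral_finset_sum _ (fun b _ => hf a b)]

/-- (D1) `∫ (E_a g(τ_a x))² = E_{a,b} ∫ g(τ_a x) g(τ_b x) = ∫ g(x) E_{a,b} g(τ_{b-a} x)`; `nrm (k+1) g = E_{a,b} ∫ g(τ_a x) g(τ_b x) d_{ab}(x) = ∫ g(x) E_{a,b} g(τ_{b-a} x) d_{ab}(τ_{-a} x)` (for `a, b` outside of the range take the same choice: `d_{ab}` is defined for all `a b`). -/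
theorem nrm_dual (hτ : IsAct m τ) (H k : ℕ) (g : X → ℝ) (hg : Measurable g) (hb : ∀ x, |g x| ≤ 1) :
    ∃ d ∈ Dual τ H k, nrm m τ H k g = ∫ x, g x * d x ∂m := by
  have hgt : ∀ n : ℤ, Measurable fun x => g (τ n x) := fun n => hg.comp (hτ.mp n).measurable
  induction k generalizing g with
  | zero =>
    refine ⟨_, ⟨g, hg, hb, rfl⟩, ?_⟩
    have h1 : ∀ x, ((∑ a ∈ range H, g (τ (a : ℤ) x)) / (H : ℝ)) ^ 2 =
        (∑ a ∈ range H, ∑ b ∈ range H, g (τ (a : ℤ) x) * g (τ (b : ℤ) x)) / (H : ℝ) ^ 2 := by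
      intro x
      rw [div_pow, sq (∑ a ∈ range H, g (τ (a : ℤ) x)), Finset.sum_mul_sum]
    have h2 : ∀ a b : ℕ, ∫ x, g (τ (a : ℤ) x) * g (τ (b : ℤ) x) ∂m =
        ∫ x, g x * g (τ ((b : ℤ) - (a : ℤ)) x) ∂m := by
      intro a b
      rw [← dbasic_move hτ (a : ℤ) (f := fun x => g x * g (τ ((b : ℤ) - (a : ℤ)) x))
        (hg.mul (hgt ((b : ℤ) - (a : ℤ))))]
      refine integral_congr_ae (Filter.Eventually.of_forall fun x => ?_)
      show g (τ (a : ℤ) x) * g (τ (b : ℤ) x) =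
        g (τ (a : ℤ) x) * g (τ ((b : ℤ) - (a : ℤ)) (τ (a : ℤ) x))
      rw [← hτ.add, sub_add_cancel]
    show ∫ x, ((∑ a ∈ range H, g (τ (a : ℤ) x)) / (H : ℝ)) ^ 2 ∂m = _
    rw [integral_congr_ae (Filter.Eventually.of_forall h1),
      ← dbasic_sum H (fun a b x => g (τ (a : ℤ) x) * g (τ (b : ℤ) x))
        (fun a b => dbasic_int ((hgt _).mul (hgt _)) fun x => dbasic_mul (hb _) (hb _)),
      Finset.sum_congr rfl (fun a _ => Finset.sum_congr rfl fun b _ => h2 a b),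
      dbasic_sum H (fun a b x => g x * g (τ ((b : ℤ) - (a : ℤ)) x))
        (fun a b => dbasic_int (hg.mul (hgt _)) fun x => dbasic_mul (hb _) (hb _))]
    refine integral_congr_ae (Filter.Eventually.of_forall fun x => ?_)
    show (∑ a ∈ range H, ∑ b ∈ range H, g x * g (τ ((b : ℤ) - (a : ℤ)) x)) / (H : ℝ) ^ 2 =
      g x * ((∑ a ∈ range H, ∑ b ∈ range H, g (τ ((b : ℤ) - (a : ℤ)) x)) / (H : ℝ) ^ 2)
    rw [← mul_div_assoc, Finset.mul_sum]
    refine congrArg (fun t => t / (H : ℝ) ^ 2) (Finset.sum_congr rfl fun a _ => ?_)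
    rw [Finset.mul_sum]
  | succ k ih =>
    have h0 : ∀ a b : ℕ, ∃ d ∈ Dual τ H k,
        nrm m τ H k (fun x => g (τ (a : ℤ) x) * g (τ (b : ℤ) x)) =
          ∫ x, (g (τ (a : ℤ) x) * g (τ (b : ℤ) x)) * d x ∂m := by
      intro a b
      exact ih (fun x => g (τ (a : ℤ) x) * g (τ (b : ℤ) x)) ((hgt _).mul (hgt _))
        (fun x => dbasic_mul (hb _) (hb _))
        (fun n => ((hgt _).mul (hgt _)).comp (hτ.mp n).measurable)
    choose e he hE using h0
    have hem : ∀ a b : ℕ, Measurable (e a b) := fun a b => (dual_meas hτ H k _ (he a b)).1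
    have heb : ∀ (a b : ℕ) (x : X), |e a b x| ≤ 1 := fun a b => (dual_meas hτ H k _ (he a b)).2
    refine ⟨_, ⟨g, e, hg, hb, he, rfl⟩, ?_⟩
    have h2 : ∀ a b : ℕ, ∫ x, (g (τ (a : ℤ) x) * g (τ (b : ℤ) x)) * e a b x ∂m =
        ∫ x, g x * (g (τ ((b : ℤ) - (a : ℤ)) x) * e a b (τ (-(a : ℤ)) x)) ∂m := by
      intro a b
      rw [← dbasic_move hτ (a : ℤ)
        (f := fun x => g x * (g (τ ((b : ℤ) - (a : ℤ)) x) * e a b (τ (-(a : ℤ)) x)))
        (hg.mul ((hgt ((b : ℤ) - (a : ℤ))).mul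
          ((hem a b).comp (hτ.mp (-(a : ℤ))).measurable)))]
      refine integral_congr_ae (Filter.Eventually.of_forall fun x => ?_)
      show (g (τ (a : ℤ) x) * g (τ (b : ℤ) x)) * e a b x =
        g (τ (a : ℤ) x) * (g (τ ((b : ℤ) - (a : ℤ)) (τ (a : ℤ) x)) *
          e a b (τ (-(a : ℤ)) (τ (a : ℤ) x)))
      rw [← hτ.add, ← hτ.add, sub_add_cancel, neg_add_cancel, hτ.zero, mul_assoc]
    show (∑ a ∈ range H, ∑ b ∈ range H,
      nrm m τ H k (fun x => g (τ (a : ℤ) x) * g (τ (b : ℤ) x))) / (H : ℝ) ^ 2 = _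
    rw [Finset.sum_congr rfl (fun a _ => Finset.sum_congr rfl fun b _ => (hE a b).trans (h2 a b)),
      dbasic_sum H (fun a b x => g x * (g (τ ((b : ℤ) - (a : ℤ)) x) * e a b (τ (-(a : ℤ)) x)))
        (fun a b => dbasic_int (hg.mul ((hgt _).mul ((hem a b).comp (hτ.mp _).measurable)))
          fun x => dbasic_mul (hb _) (dbasic_mul (hb _) (heb a b _)))]
    refine integral_congr_ae (Filter.Eventually.of_forall fun x => ?_)
    show (∑ a ∈ range H, ∑ b ∈ range H,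
        g x * (g (τ ((b : ℤ) - (a : ℤ)) x) * e a b (τ (-(a : ℤ)) x))) / (H : ℝ) ^ 2 =
      g x * ((∑ a ∈ range H, ∑ b ∈ range H,
        g (τ ((b : ℤ) - (a : ℤ)) x) * e a b (τ (-(a : ℤ)) x)) / (H : ℝ) ^ 2)
    rw [← mul_div_assoc, Finset.mul_sum]
    refine congrArg (fun t => t / (H : ℝ) ^ 2) (Finset.sum_congr rfl fun a _ => ?_)
    rw [Finset.mul_sum]

private theorem dbasic_nonneg (H k : ℕ) : ∀ g : X → ℝ, 0 ≤ nrm m τ H k g := by
  induction k with
  | zero =>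
    intro g
    exact integral_nonneg fun x => sq_nonneg _
  | succ k ih =>
    intro g
    exact div_nonneg (Finset.sum_nonneg fun a _ => Finset.sum_nonneg fun b _ => ih _) (sq_nonneg _)

theorem nrm_nonneg (H k : ℕ) (g : X → ℝ) : 0 ≤ nrm m τ H k g := dbasic_nonneg H k g

end

end Pool.Agent.Lib.MP_3e612f_nt.ZE
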