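import Mathlib

/-! (D3) The projections to an increasing sequence of algebras of bounded functions form a Cauchy
sequence. -/

set_option autoImplicit false

namespace Pool.Agent.Lib.MP_3e612f_nt.ZE

open Finset MeasureTheory Filter Topology

private theorem projMono_int {X : Type} [MeasurableSpace X] (m : Measure X)
    [IsProbabilityMeasure m] {f : X → ℝ} (hf : Measurable f) {C : ℝ} (h : ∀ x, |f x| ≤ C) :
    Integrable f m :=
  Integrable.of_bound hf.aestronglyMeasurable C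
    (Eventually.of_forall fun x => by rw [Real.norm_eq_abs]; exact h x)

/-- A function orthogonal to a family is orthogonal to everything approximated by the family. -/
private theorem projMono_orth {X : Type} [MeasurableSpace X] (m : Measure X)
    [IsProbabilityMeasure m] (u g : X → ℝ) (hu : Measurable u) (hu1 : ∀ x, |u x| ≤ 2)
    (hg : Measurable g) (hg1 : ∀ x, |g x| ≤ 1) (S : Set (X → ℝ))
    (hS : ∀ A ∈ S, Measurable A ∧ ∃ C : ℝ, ∀ x, |A x| ≤ C)
    (ho : ∀ A ∈ S, ∫ x, u x * A x ∂m = 0)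
    (ha : ∀ η : ℝ, 0 < η → ∃ A ∈ S, ∫ x, (g x - A x) ^ 2 ∂m ≤ η) :
    ∫ x, u x * g x ∂m = 0 := by
  have key : ∀ t : ℝ, 0 < t → |∫ x, u x * g x ∂m| ≤ 5 * t := by
    intro t ht
    obtain ⟨A, hA, hAt⟩ := ha (t ^ 2) (by positivity)
    obtain ⟨hAm, C, hC⟩ := hS A hA
    have hC0 : ∀ x, |u x| * |A x| ≤ 2 * C := fun x =>
      mul_le_mul (hu1 x) (hC x) (abs_nonneg _) (by norm_num)
    have i1 : Integrable (fun x => u x * g x) m :=
      projMono_int m (hu.mul hg) (C := 2) (fun x => by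
        rw [abs_mul]
        calc |u x| * |g x| ≤ 2 * 1 := mul_le_mul (hu1 x) (hg1 x) (abs_nonneg _) (by norm_num)
          _ = 2 := by norm_num)
    have i2 : Integrable (fun x => u x * A x) m :=
      projMono_int m (hu.mul hAm) (C := 2 * C) (fun x => by rw [abs_mul]; exact hC0 x)
    have i3 : Integrable (fun x => (g x - A x) ^ 2) m :=
      projMono_int m ((hg.sub hAm).pow_const 2) (C := (1 + C) ^ 2) (fun x => by
        rw [abs_pow]
        refine pow_le_pow_left₀ (abs_nonneg _) ?_ 2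
        exact (abs_sub _ _).trans (add_le_add (hg1 x) (hC x)))
    have h1 : ∫ x, u x * g x ∂m = ∫ x, u x * (g x - A x) ∂m := by
      have h2 : (fun x => u x * (g x - A x)) = fun x => u x * g x - u x * A x := by
        funext x
        ring
      rw [h2, integral_sub i1 i2, ho A hA, sub_zero]
    rw [h1]
    have h3 : ∀ x, ‖u x * (g x - A x)‖ ≤ 4 * t + (g x - A x) ^ 2 / t := by
      intro x
      rw [Real.norm_eq_abs, abs_mul]
      have h4 : (g x - A x) ^ 2 = |g x - A x| ^ 2 := (sq_abs _).symm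
      rw [h4]
      obtain ⟨a, ha'⟩ : ∃ a, a = |u x| := ⟨_, rfl⟩
      obtain ⟨b, hb'⟩ : ∃ b, b = |g x - A x| := ⟨_, rfl⟩
      rw [← ha', ← hb']
      have ha0 : 0 ≤ a := ha' ▸ abs_nonneg _
      have hb0 : 0 ≤ b := hb' ▸ abs_nonneg _
      have ha2 : a ≤ 2 := ha' ▸ hu1 x
      have h5 : 4 * t + b ^ 2 / t = (4 * t ^ 2 + b ^ 2) / t := by
        field_simp
      rw [h5, le_div_iff₀ ht]
      nlinarith [sq_nonneg (2 * t - b), mul_nonneg hb0 ht.le, mul_nonneg (mul_nonneg hb0 ht.le)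
        (sub_nonneg.2 ha2)]
    have i4 : Integrable (fun x => 4 * t + (g x - A x) ^ 2 / t) m :=
      (integrable_const _).add (i3.div_const t)
    calc |∫ x, u x * (g x - A x) ∂m| = ‖∫ x, u x * (g x - A x) ∂m‖ := (Real.norm_eq_abs _).symm
      _ ≤ ∫ x, (4 * t + (g x - A x) ^ 2 / t) ∂m :=
          norm_integral_le_of_norm_le i4 (Eventually.of_forall h3)
      _ = 4 * t + (∫ x, (g x - A x) ^ 2 ∂m) / t := by
          rw [integral_add (integrable_const _) (i3.div_const t), integral_const,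
            integral_div]
          simp
      _ ≤ 4 * t + t ^ 2 / t := by
          gcongr
      _ = 5 * t := by
          field_simp
          ring
  by_contra hne
  have h0 : 0 < |∫ x, u x * g x ∂m| := abs_pos.2 hne
  have h1 := key (|∫ x, u x * g x ∂m| / 10) (by positivity)
  linarith

/-- The projections to an increasing sequence of algebras are a Cauchy sequence: for `K ≥ K₁`, `∫ (G_K - G_{K₁})² = ∫ G_K² - ∫ G_{K₁}²` (`F - G_K` is orthogonal to `𝒜_{K₁}` and by approximation to `G_{K₁}`), and `∫ G_K² ≤ 1` is increasing. -/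
theorem proj_mono' {X : Type} [MeasurableSpace X] (m : Measure X) [IsProbabilityMeasure m] (𝒜 : ℕ → Subalgebra ℝ (X → ℝ)) (hm : Monotone 𝒜)
    (h𝒜 : ∀ k, ∀ A ∈ 𝒜 k, Measurable A ∧ ∃ C : ℝ, ∀ x, |A x| ≤ C) (F : X → ℝ) (hF : Measurable F) (hb : ∀ x, |F x| ≤ 1)
    (G : ℕ → X → ℝ) (hG : ∀ k, Measurable (G k)) (hG1 : ∀ k x, |G k x| ≤ 1) (ho : ∀ k, ∀ A ∈ 𝒜 k, ∫ x, (F x - G k x) * A x ∂m = 0)
    (ha : ∀ k, ∀ η : ℝ, 0 < η → ∃ A ∈ 𝒜 k, ∫ x, (G k x - A x) ^ 2 ∂m ≤ η) (η : ℝ) (hη : 0 < η) :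
    ∃ K₁ : ℕ, ∀ K ≥ K₁, ∫ x, (G K x - G K₁ x) ^ 2 ∂m ≤ η := by
  have hsq : ∀ k, Integrable (fun x => G k x ^ 2) m := fun k =>
    projMono_int m ((hG k).pow_const 2) (C := 1) (fun x => by
      rw [abs_pow]
      exact pow_le_one₀ (abs_nonneg _) (hG1 k x))
  have hmul : ∀ k j, ∀ A ∈ 𝒜 j, Integrable (fun x => (F x - G k x) * A x) m := by
    intro k j A hA
    obtain ⟨hAm, C, hC⟩ := h𝒜 j A hA
    refine projMono_int m ((hF.sub (hG k)).mul hAm) (C := (1 + 1) * C) (fun x => ?_)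
    rw [abs_mul]
    exact mul_le_mul ((abs_sub _ _).trans (add_le_add (hb x) (hG1 k x))) (hC x) (abs_nonneg _)
      (by norm_num)
  have h0 : ∀ J K, J ≤ K → ∫ x, (G K x - G J x) * G J x ∂m = 0 := by
    intro J K hJK
    refine projMono_orth m (fun x => G K x - G J x) (G J) ((hG K).sub (hG J)) (fun x => ?_) (hG J)
      (hG1 J) (𝒜 J : Set (X → ℝ)) (fun A hA => h𝒜 J A hA) (fun A hA => ?_) (fun η hη => ha J η hη)
    · have h1 := (abs_sub (G K x) (G J x)).trans (add_le_add (hG1 K x) (hG1 J x))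
      linarith
    · have hAK : A ∈ 𝒜 K := hm hJK hA
      have h2 : (fun x => (G K x - G J x) * A x) =
          fun x => (F x - G J x) * A x - (F x - G K x) * A x := by
        funext x
        ring
      rw [h2, integral_sub (hmul J J A hA) (hmul K J A hA), ho J A hA, ho K A hAK, sub_zero]
  have h1 : ∀ J K, J ≤ K → ∫ x, (G K x - G J x) ^ 2 ∂m =
      (∫ x, G K x ^ 2 ∂m) - ∫ x, G J x ^ 2 ∂m := by
    intro J K hJK
    have i1 : Integrable (fun x => (G K x - G J x) * G J x) m :=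
      projMono_int m (((hG K).sub (hG J)).mul (hG J)) (C := (1 + 1) * 1) (fun x => by
        rw [abs_mul]
        exact mul_le_mul ((abs_sub _ _).trans (add_le_add (hG1 K x) (hG1 J x))) (hG1 J x)
          (abs_nonneg _) (by norm_num))
    have h2 : (fun x => (G K x - G J x) ^ 2) =
        fun x => G K x ^ 2 - G J x ^ 2 - 2 * ((G K x - G J x) * G J x) := by
      funext x
      ring
    have i2 : Integrable (fun x => G K x ^ 2 - G J x ^ 2) m := (hsq K).sub (hsq J)
    rw [h2, integral_sub i2 (i1.const_mul 2), integral_sub (hsq K) (hsq J),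
      integral_const_mul, h0 J K hJK, mul_zero, sub_zero]
  have hbd : BddAbove (Set.range fun k => ∫ x, G k x ^ 2 ∂m) := by
    refine ⟨1, ?_⟩
    rintro _ ⟨k, rfl⟩
    calc ∫ x, G k x ^ 2 ∂m ≤ ∫ x, (1 : ℝ) ∂m := by
          refine integral_mono (hsq k) (integrable_const _) fun x => ?_
          have h3 : G k x ^ 2 = |G k x| ^ 2 := (sq_abs _).symm
          show G k x ^ 2 ≤ 1
          rw [h3]
          exact pow_le_one₀ (abs_nonneg _) (hG1 k x)
      _ = 1 := by simp
  obtain ⟨K₁, hK₁⟩ := exists_lt_of_lt_ciSup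
    (show (⨆ k, ∫ x, G k x ^ 2 ∂m) - η < ⨆ k, ∫ x, G k x ^ 2 ∂m by linarith)
  refine ⟨K₁, fun K hK => ?_⟩
  rw [h1 K₁ K hK]
  have h4 := le_ciSup hbd K
  linarith

end Pool.Agent.Lib.MP_3e612f_nt.ZE
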