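import Mathlib
import Pool.Agent.Lib.MP_3e612f_nt.ZE.D.ProjMono

/-! (D3) Projection of a bounded function to the closure of an algebra of bounded functions. -/

set_option autoImplicit false

namespace Pool.Agent.Lib.MP_3e612f_nt.ZE

open Finset MeasureTheory Filter Topology

private noncomputable def pj_cl (t : ℝ) : ℝ := max (-1) (min t 1)

private theorem pj_cl_lip (s t : ℝ) : |pj_cl s - pj_cl t| ≤ |s - t| := by
  unfold pj_cl
  refine (abs_max_sub_max_le_max _ _ _ _).trans (max_le (by simp) ?_)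
  refine (abs_min_sub_min_le_max _ _ _ _).trans (max_le le_rfl (by simp))

private theorem pj_cl_of {t : ℝ} (h : |t| ≤ 1) : pj_cl t = t := by
  rw [abs_le] at h
  unfold pj_cl
  rw [min_eq_left h.2, max_eq_right h.1]

private theorem pj_cl_le (t : ℝ) : |pj_cl t| ≤ 1 := by
  unfold pj_cl
  rw [abs_le]
  exact ⟨le_max_left _ _, max_le (by norm_num) (min_le_right _ _)⟩

private theorem pj_cl_cont : Continuous pj_cl :=
  continuous_const.max (continuous_id.min continuous_const)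

/-- The classes of the elements of the algebra. -/
private def pj_V {X : Type} [MeasurableSpace X] (m : Measure X) (𝒜 : Subalgebra ℝ (X → ℝ)) :
    Submodule ℝ (Lp ℝ 2 m) where
  carrier := {f | ∃ A ∈ 𝒜, (f : X → ℝ) =ᵐ[m] A}
  zero_mem' := ⟨0, 𝒜.zero_mem, Lp.coeFn_zero ℝ 2 m⟩
  add_mem' := by
    rintro f g ⟨A, hA, hf⟩ ⟨B, hB, hg⟩
    exact ⟨A + B, 𝒜.add_mem hA hB, (Lp.coeFn_add f g).trans (hf.add hg)⟩
  smul_mem' := by
    rintro c f ⟨A, hA, hf⟩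
    refine ⟨c • A, 𝒜.smul_mem hA c, (Lp.coeFn_smul c f).trans ?_⟩
    filter_upwards [hf] with x hx
    rw [Pi.smul_apply, Pi.smul_apply, hx]

private theorem pj_lp {X : Type} [MeasurableSpace X] (m : Measure X) [IsProbabilityMeasure m]
    {f : X → ℝ} (hf : Measurable f) {C : ℝ} (hC : ∀ x, |f x| ≤ C) : MemLp f 2 m :=
  MemLp.of_bound hf.aestronglyMeasurable C (Eventually.of_forall hC)

/-- polynomial approximation of the clamp inside the algebra -/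
private theorem pj_poly {X : Type} (𝒜 : Subalgebra ℝ (X → ℝ)) {A : X → ℝ} (hA : A ∈ 𝒜) {C : ℝ}
    (hC : ∀ x, |A x| ≤ C) {ε : ℝ} (hε : 0 < ε) : ∃ B ∈ 𝒜, ∀ x, |B x - pj_cl (A x)| ≤ ε := by
  obtain ⟨p, hp⟩ := exists_polynomial_near_of_continuousOn (-C) C pj_cl pj_cl_cont.continuousOn ε hε
  refine ⟨(Polynomial.aeval A p : X → ℝ), ?_, fun x => ?_⟩
  · have h := (Polynomial.aeval (⟨A, hA⟩ : 𝒜) p).2
    have h1 : ((Polynomial.aeval (⟨A, hA⟩ : 𝒜) p : 𝒜) : X → ℝ) = Polynomial.aeval A p := by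
      have h2 := Polynomial.aeval_algHom_apply 𝒜.val (⟨A, hA⟩ : 𝒜) p
      exact h2.symm
    rw [← h1]
    exact h
  · have h1 : (Polynomial.aeval A p : X → ℝ) x = Polynomial.eval (A x) p := by
      have h2 := Polynomial.aeval_algHom_apply (Pi.evalAlgHom ℝ (fun _ : X => ℝ) x) A p
      rw [Pi.evalAlgHom_apply, Pi.evalAlgHom_apply, Polynomial.coe_aeval_eq_eval] at h2
      exact h2.symm
    rw [h1]
    exact (hp (A x) ⟨(abs_le.1 (hC x)).1, (abs_le.1 (hC x)).2⟩).le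

private theorem pj_norm {X : Type} [MeasurableSpace X] (m : Measure X) (f : Lp ℝ 2 m) {u : X → ℝ}
    (hu : (f : X → ℝ) =ᵐ[m] u) : ∫ x, u x ^ 2 ∂m = ‖f‖ ^ 2 := by
  rw [← real_inner_self_eq_norm_sq, L2.inner_def]
  refine integral_congr_ae ?_
  filter_upwards [hu] with x hx
  rw [hx]
  change u x ^ 2 = u x * u x
  ring

/-- Let `V` be the closure in `L²(m)` of the classes of the elements of `𝒜`. `V` is a closed subspace; if `u ∈ V` then `|u| ∈ V` (for `u ∈ 𝒜` bounded by `C`: uniform polynomial approximation of `|·|` on `[-C,C]`, `polynomialFunctions` dense; then `‖|u| - |u'|‖₂ ≤ ‖u - u'‖₂`), so `V` is closed under `min`, `max` and contains the constants,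
hence `clamp u = max (-1) (min u 1) ∈ V`. `G` = orthogonal projection of `F` to `V`: `|F - clamp G| ≤ |F - G|` pointwise, so `clamp G = G` a.e. by uniqueness of the projection; take a measurable representative and clamp it. -/
theorem proj {X : Type} [MeasurableSpace X] (m : Measure X) [IsProbabilityMeasure m] (𝒜 : Subalgebra ℝ (X → ℝ))
    (h𝒜 : ∀ A ∈ 𝒜, Measurable A ∧ ∃ C : ℝ, ∀ x, |A x| ≤ C) (F : X → ℝ) (hF : Measurable F) (hb : ∀ x, |F x| ≤ 1) :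
    ∃ G : X → ℝ, Measurable G ∧ (∀ x, |G x| ≤ 1) ∧ (∀ A ∈ 𝒜, ∫ x, (F x - G x) * A x ∂m = 0) ∧
      ∀ η : ℝ, 0 < η → ∃ A ∈ 𝒜, ∫ x, (G x - A x) ^ 2 ∂m ≤ η := by
  have hFp := pj_lp m hF hb
  set u : Lp ℝ 2 m := hFp.toLp F with hu
  have hu1 : (u : X → ℝ) =ᵐ[m] F := hFp.coeFn_toLp
  set V := (pj_V m 𝒜).topologicalClosure with hV
  have hVc : IsComplete (V : Set (Lp ℝ 2 m)) :=
    (pj_V m 𝒜).isClosed_topologicalClosure.isComplete
  obtain ⟨v, hvV, hv⟩ := V.exists_norm_eq_iInf_of_complete_subspace hVc u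
  set g : X → ℝ := (v : X → ℝ) with hg
  have hgm : Measurable g := (Lp.stronglyMeasurable v).measurable
  set G : X → ℝ := fun x => pj_cl (g x) with hG
  have hGm : Measurable G := pj_cl_cont.measurable.comp hgm
  have hGb : ∀ x, |G x| ≤ 1 := fun x => pj_cl_le _
  have hGp := pj_lp m hGm hGb
  set w : Lp ℝ 2 m := hGp.toLp G with hw
  have hw1 : (w : X → ℝ) =ᵐ[m] G := hGp.coeFn_toLp
  -- the clamped function is in the closure
  have hwV : w ∈ V := by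
    change w ∈ closure (pj_V m 𝒜 : Set (Lp ℝ 2 m))
    rw [Metric.mem_closure_iff]
    intro ε hε
    have hvc : v ∈ closure (pj_V m 𝒜 : Set (Lp ℝ 2 m)) := hvV
    rw [Metric.mem_closure_iff] at hvc
    obtain ⟨z, hz, hvz⟩ := hvc (ε / 2) (by linarith)
    obtain ⟨A, hA, hzA⟩ := hz
    obtain ⟨C, hC⟩ := (h𝒜 A hA).2
    obtain ⟨B, hB, hBA⟩ := pj_poly 𝒜 hA hC (ε := ε / 4) (by linarith)
    obtain ⟨hBm, C', hC'⟩ := h𝒜 B hB
    have hBp := pj_lp m hBm hC'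
    have hAp := pj_lp m (pj_cl_cont.measurable.comp (h𝒜 A hA).1) (C := 1) (fun x => pj_cl_le _)
    refine ⟨hBp.toLp B, ⟨B, hB, hBp.coeFn_toLp⟩, ?_⟩
    set y : Lp ℝ 2 m := hAp.toLp _ with hy
    have h1 : ‖w - y‖ ≤ ‖v - z‖ := by
      refine Lp.norm_le_norm_of_ae_le ?_
      filter_upwards [Lp.coeFn_sub w y, Lp.coeFn_sub v z, hw1, hAp.coeFn_toLp, hzA] with
        x h1 h2 h3 h4 h5
      rw [h1, h2, Pi.sub_apply, Pi.sub_apply, h3, h4, h5]
      exact pj_cl_lip _ _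
    have h2 : ‖y - hBp.toLp B‖ ≤ ε / 4 := by
      have h3 := Lp.norm_le_of_ae_bound (f := y - hBp.toLp B) (C := ε / 4) (by linarith) (by
        filter_upwards [Lp.coeFn_sub y (hBp.toLp B), hBp.coeFn_toLp, hAp.coeFn_toLp] with x h1 h2 h3
        rw [h1, Pi.sub_apply, h2, h3, norm_sub_rev]
        exact hBA x)
      have h4 : measureUnivNNReal m = 1 := by simp [measureUnivNNReal]
      rw [h4, NNReal.coe_one, Real.one_rpow, one_mul] at h3
      exact h3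
    rw [dist_eq_norm] at hvz ⊢
    calc ‖w - hBp.toLp B‖ = ‖(w - y) + (y - hBp.toLp B)‖ := by rw [sub_add_sub_cancel]
      _ ≤ ‖w - y‖ + ‖y - hBp.toLp B‖ := norm_add_le _ _
      _ < ε := by linarith
  -- the clamped function is as close to `F`
  have hle : ‖u - w‖ ≤ ‖u - v‖ := by
    refine Lp.norm_le_norm_of_ae_le ?_
    filter_upwards [Lp.coeFn_sub u w, Lp.coeFn_sub u v, hw1, hu1] with x h1 h2 h3 h4
    rw [h1, h2, Pi.sub_apply, Pi.sub_apply, h3, h4]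
    have h5 := pj_cl_lip (F x) (g x)
    rw [pj_cl_of (hb x)] at h5
    exact h5
  have hmin : ‖u - w‖ = ⨅ z : V, ‖u - (z : Lp ℝ 2 m)‖ := by
    refine le_antisymm (hle.trans hv.le) ?_
    exact ciInf_le ⟨0, by rintro _ ⟨z, rfl⟩; exact norm_nonneg _⟩ (⟨w, hwV⟩ : V)
  have hort := (V.norm_eq_iInf_iff_real_inner_eq_zero hwV).1 hmin
  refine ⟨G, hGm, hGb, fun A hA => ?_, fun η hη => ?_⟩
  · obtain ⟨hAm, C, hC⟩ := h𝒜 A hA
    have hAp := pj_lp m hAm hC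
    have h1 := hort (hAp.toLp A) (subset_closure (⟨A, hA, hAp.coeFn_toLp⟩ : hAp.toLp A ∈ pj_V m 𝒜))
    rw [L2.inner_def] at h1
    rw [← h1]
    refine integral_congr_ae ?_
    filter_upwards [Lp.coeFn_sub u w, hw1, hu1, hAp.coeFn_toLp] with x h2 h3 h4 h5
    rw [h2, Pi.sub_apply, h3, h4, h5]
    change (F x - G x) * A x = A x * (F x - G x)
    ring
  · have hwc : w ∈ closure (pj_V m 𝒜 : Set (Lp ℝ 2 m)) := hwV
    rw [Metric.mem_closure_iff] at hwc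
    obtain ⟨z, ⟨A, hA, hzA⟩, hwz⟩ := hwc (√η) (Real.sqrt_pos.2 hη)
    refine ⟨A, hA, ?_⟩
    have h1 : ((w - z : Lp ℝ 2 m) : X → ℝ) =ᵐ[m] fun x => G x - A x := by
      filter_upwards [Lp.coeFn_sub w z, hw1, hzA] with x h2 h3 h4
      rw [h2, Pi.sub_apply, h3, h4]
    rw [pj_norm m (w - z) h1]
    rw [dist_eq_norm] at hwz
    calc ‖w - z‖ ^ 2 ≤ √η ^ 2 := pow_le_pow_left₀ (norm_nonneg _) hwz.le 2
      _ = η := Real.sq_sqrt hη.le

/-- The projections to an increasing sequence of algebras are a Cauchy sequence: for `K ≥ K₁`, `∫ (G_K - G_{K₁})² = ∫ G_K² - ∫ G_{K₁}²` (`F - G_K` is orthogonal to `𝒜_{K₁}` and by approximation to `G_{K₁}`), and `∫ G_K² ≤ 1` is increasing. -/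
theorem proj_mono {X : Type} [MeasurableSpace X] (m : Measure X) [IsProbabilityMeasure m] (𝒜 : ℕ → Subalgebra ℝ (X → ℝ)) (hm : Monotone 𝒜)
    (h𝒜 : ∀ k, ∀ A ∈ 𝒜 k, Measurable A ∧ ∃ C : ℝ, ∀ x, |A x| ≤ C) (F : X → ℝ) (hF : Measurable F) (hb : ∀ x, |F x| ≤ 1)
    (G : ℕ → X → ℝ) (hG : ∀ k, Measurable (G k)) (hG1 : ∀ k x, |G k x| ≤ 1) (ho : ∀ k, ∀ A ∈ 𝒜 k, ∫ x, (F x - G k x) * A x ∂m = 0)
    (ha : ∀ k, ∀ η : ℝ, 0 < η → ∃ A ∈ 𝒜 k, ∫ x, (G k x - A x) ^ 2 ∂m ≤ η) (η : ℝ) (hη : 0 < η) :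
    ∃ K₁ : ℕ, ∀ K ≥ K₁, ∫ x, (G K x - G K₁ x) ^ 2 ∂m ≤ η :=
  proj_mono' m 𝒜 hm h𝒜 F hF hb G hG hG1 ho ha η hη

end Pool.Agent.Lib.MP_3e612f_nt.ZE
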