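import Pool.Agent.Lib.MP_3e612f_nt.ZE.D.Weak
import Pool.Agent.Lib.MP_3e612f_nt.ZE.D.Proj

/-! Theorem D: the structured parts. -/

set_option autoImplicit false

namespace Pool.Agent.Lib.MP_3e612f_nt.ZE

open Finset MeasureTheory Filter Topology

private theorem dMain_int {X : Type} [MeasurableSpace X] {m : Measure X} [IsProbabilityMeasure m]
    {u : X → ℝ} (hu : Measurable u) {C : ℝ} (hC : ∀ x, |u x| ≤ C) : Integrable u m :=
  Integrable.of_bound hu.aestronglyMeasurable C (Eventually.of_forall fun x => hC x)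

private theorem dMain_abs {X : Type} [MeasurableSpace X] {m : Measure X} [IsProbabilityMeasure m]
    {u : X → ℝ} (hu : Measurable u) {C : ℝ} (hC : ∀ x, |u x| ≤ C) {η : ℝ} (hη : 0 < η)
    (h : ∫ x, u x ^ 2 ∂m ≤ η ^ 2) : ∫ x, |u x| ∂m ≤ η := by
  have h1 : Integrable (fun x => |u x|) m := (dMain_int hu hC).abs
  have h2 : Integrable (fun x => u x ^ 2) m := by
    refine dMain_int (C := C ^ 2) (hu.pow_const 2) fun x => ?_
    rw [abs_pow]
    exact pow_le_pow_left₀ (abs_nonneg _) (hC x) 2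
  have h3 : ∫ x, |u x| ∂m ≤ ∫ x, (u x ^ 2 * (1 / (2 * η)) + η / 2) ∂m := by
    refine integral_mono h1 ((h2.mul_const _).add (integrable_const _)) fun x => ?_
    have h4 : 0 ≤ (|u x| - η) ^ 2 := sq_nonneg _
    have h5 : u x ^ 2 = |u x| ^ 2 := (sq_abs _).symm
    change |u x| ≤ u x ^ 2 * (1 / (2 * η)) + η / 2
    have h6 : u x ^ 2 * (1 / (2 * η)) + η / 2 = (|u x| ^ 2 + η ^ 2) / (2 * η) := by
      rw [h5]
      field_simp
    rw [h6, le_div_iff₀ (by positivity)]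
    nlinarith
  rw [integral_add (h2.mul_const _) (integrable_const _), integral_mul_const, integral_const] at h3
  simp only [probReal_univ, one_smul] at h3
  have h4 : (∫ x, u x ^ 2 ∂m) * (1 / (2 * η)) ≤ η ^ 2 * (1 / (2 * η)) :=
    mul_le_mul_of_nonneg_right h (by positivity)
  have h5 : η ^ 2 * (1 / (2 * η)) = η / 2 := by
    field_simp
  linarith

/-- `proj`, `proj_mono` for `𝒜 k = Alg m τ k` (`alg_succ`, `alg_bdd`). (i): `g' = (F - G_k)/2`; for `i ≤ k` choose `d_H ∈ Dual (H+1) i` with `nrm (H+1) i g' = ∫ g' d_H` (`nrm_dual`), `D` its limit (`exists_isLim`), `D ∈ Alg k` (`alg_succ`), so `nrm (H+1) i g' → ∫ g' D = 0` along the hyperfilter, hence there is an `H` with `nrm (H+1) i g' ≤ d`. (ii), (iii): `∫ |u| ≤ (∫ u²)^{1/2}`. -/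
theorem structured {X : Type} [MeasurableSpace X] {m : Measure X} [IsProbabilityMeasure m] {τ : ℤ → X → X} (hτ : IsAct m τ)
    (F : X → ℝ) (hF : Measurable F) (hb : ∀ x, |F x| ≤ 1) :
    ∃ G : ℕ → X → ℝ, (∀ k, Measurable (G k)) ∧ (∀ k x, |G k x| ≤ 1) ∧
      (∀ k, ∀ i ≤ k, Null m τ i (fun x => (F x - G k x) / 2)) ∧
      (∀ η : ℝ, 0 < η → ∃ K₁ : ℕ, ∀ K ≥ K₁, ∫ x, |G K x - G K₁ x| ∂m ≤ η) ∧
      ∀ k, ∀ η : ℝ, 0 < η → ∃ A ∈ Alg m τ k, ∫ x, |G k x - A x| ∂m ≤ η := by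
  have hmono : Monotone (Alg m τ) := monotone_nat_of_le_succ (alg_succ hτ)
  choose G hG hG1 ho ha using fun k => proj m (Alg m τ k) (alg_bdd k) F hF hb
  have hsub : ∀ (u v : X → ℝ), ∀ x, |u x| ≤ 1 → |v x| ≤ 1 → |u x - v x| ≤ 2 := by
    intro u v x h1 h2
    have h3 := abs_sub (u x) (v x)
    linarith
  refine ⟨G, hG, hG1, ?_, ?_, ?_⟩
  · intro k i hik d hd
    have hgm : Measurable fun x => (F x - G k x) / 2 := (hF.sub (hG k)).div_const 2
    have hgb : ∀ x, |(F x - G k x) / 2| ≤ 1 := by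
      intro x
      rw [abs_div, abs_two]
      have h3 := hsub F (G k) x (hb x) (hG1 k x)
      linarith
    choose dd hdd hd2 using fun H : ℕ => nrm_dual (m := m) hτ (H + 1) i _ hgm hgb
    obtain ⟨D, hD, hlim⟩ := exists_isLim (m := m) hτ i dd hdd
    have h1 := hlim _ (dMain_int hgm hgb)
    have hDm : D ∈ Alg m τ k := hmono hik (Algebra.subset_adjoin hD)
    have h2 : ∫ x, D x * ((F x - G k x) / 2) ∂m = 0 := by
      have h3 := ho k D hDm
      have h4 : (fun x => D x * ((F x - G k x) / 2)) = fun x => (1 / 2 : ℝ) * ((F x - G k x) * D x) := by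
        funext x
        ring
      rw [h4, integral_const_mul, h3, mul_zero]
    rw [h2] at h1
    have h3 := (h1.eventually (gt_mem_nhds hd)).exists
    obtain ⟨H, hH⟩ := h3
    refine ⟨H + 1, by omega, ?_⟩
    rw [hd2 H]
    have h4 : (fun x => (F x - G k x) / 2 * dd H x) = fun x => dd H x * ((F x - G k x) / 2) := by
      funext x
      ring
    rw [h4]
    exact hH.le
  · intro η hη
    obtain ⟨K₁, hK⟩ := proj_mono m (Alg m τ) hmono alg_bdd F hF hb G hG hG1 ho ha (η ^ 2) (by positivity)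
    refine ⟨K₁, fun K hKK => ?_⟩
    exact dMain_abs ((hG K).sub (hG K₁)) (fun x => hsub (G K) (G K₁) x (hG1 K x) (hG1 K₁ x)) hη
      (hK K hKK)
  · intro k η hη
    obtain ⟨A, hA, hAη⟩ := ha k (η ^ 2) (by positivity)
    obtain ⟨hAm, C, hC⟩ := alg_bdd k A hA
    refine ⟨A, hA, ?_⟩
    refine dMain_abs (C := 1 + C) ((hG k).sub hAm) (fun x => ?_) hη hAη
    have h3 := abs_sub (G k x) (A x)
    have h4 := hG1 k x
    have h5 := hC x
    change |G k x - A x| ≤ 1 + C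
    linarith

end Pool.Agent.Lib.MP_3e612f_nt.ZE
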