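import Pool.Agent.Lib.MP_3e612f_nt.ZE.D.Basic

/-! (D2) Weak limits of bounded functions along the hyperfilter. -/

set_option autoImplicit false

namespace Pool.Agent.Lib.MP_3e612f_nt.ZE

open Finset MeasureTheory Filter Topology

section
variable {X : Type} [MeasurableSpace X] {m : Measure X} [IsProbabilityMeasure m] {τ : ℤ → X → X}

/-- the product of a measurable function bounded by `1` and an integrable function is integrable -/
private theorem weak_int (v : X → ℝ) (hv : Measurable v) (hb : ∀ x, |v x| ≤ 1) (u : X → ℝ) (hu : Integrable u m) :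
    Integrable (fun x => v x * u x) m := by
  refine hu.bdd_mul (c := 1) hv.aestronglyMeasurable ?_
  exact Eventually.of_forall fun x => by rw [Real.norm_eq_abs]; exact hb x

private theorem weak_le (v : X → ℝ) (hb : ∀ x, |v x| ≤ 1) (u : X → ℝ) (hu : Integrable u m) :
    |∫ x, v x * u x ∂m| ≤ ∫ x, |u x| ∂m := by
  have h : ‖∫ x, v x * u x ∂m‖ ≤ ∫ x, |u x| ∂m := by
    refine norm_integral_le_of_norm_le hu.abs (Eventually.of_forall fun x => ?_)
    rw [Real.norm_eq_abs, abs_mul]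
    exact mul_le_of_le_one_left (abs_nonneg _) (hb x)
  rwa [Real.norm_eq_abs] at h

/-- a bounded sequence converges along the hyperfilter -/
private theorem weak_conv (a : ℕ → ℝ) (C : ℝ) (ha : ∀ n, |a n| ≤ C) :
    ∃ l : ℝ, |l| ≤ C ∧ Tendsto a (hyperfilter ℕ) (𝓝 l) := by
  have hc : IsCompact (Set.Icc (-C) C) := isCompact_Icc
  obtain ⟨l, hl, hle⟩ := hc.ultrafilter_le_nhds ((hyperfilter ℕ).map a) (by
    rw [le_principal_iff]
    exact Filter.mem_map.2 (Eventually.of_forall fun n => abs_le.1 (ha n)))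
  exact ⟨l, abs_le.2 hl, hle⟩

/-- the limit of the integrals against elements of `L²` -/
private noncomputable def wl (m : Measure X) (v : ℕ → X → ℝ) (u : Lp ℝ 2 m) : ℝ :=
  limUnder (hyperfilter ℕ : Filter ℕ) (fun n => ∫ x, v n x * u x ∂m)

private theorem wl_int (u : Lp ℝ 2 m) : Integrable (u : X → ℝ) m :=
  (Lp.memLp u).integrable (by norm_num)

private theorem wl_norm (u : Lp ℝ 2 m) : ∫ x, |u x| ∂m ≤ ‖u‖ := by
  have h1 : eLpNorm (u : X → ℝ) 1 m ≤ eLpNorm (u : X → ℝ) 2 m :=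
    eLpNorm_le_eLpNorm_of_exponent_le (by norm_num) (Lp.aestronglyMeasurable u)
  have h2 : ∫ x, |u x| ∂m = (eLpNorm (u : X → ℝ) 1 m).toReal := by
    rw [eLpNorm_one_eq_lintegral_enorm, ← integral_norm_eq_lintegral_enorm (Lp.aestronglyMeasurable u)]
    rfl
  rw [h2, Lp.norm_def]
  exact ENNReal.toReal_mono (Lp.eLpNorm_ne_top u) h1

private theorem wl_tendsto (v : ℕ → X → ℝ) (hb : ∀ n x, |v n x| ≤ 1) (u : Lp ℝ 2 m) :
    Tendsto (fun n => ∫ x, v n x * u x ∂m) (hyperfilter ℕ) (𝓝 (wl m v u)) := by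
  obtain ⟨l, _, hl⟩ := weak_conv (fun n => ∫ x, v n x * u x ∂m) (∫ x, |u x| ∂m)
    (fun n => weak_le (v n) (hb n) u (wl_int u))
  have h : wl m v u = l := hl.limUnder_eq
  rw [h]
  exact hl

private theorem wl_add (v : ℕ → X → ℝ) (hv : ∀ n, Measurable (v n)) (hb : ∀ n x, |v n x| ≤ 1) (u w : Lp ℝ 2 m) :
    wl m v (u + w) = wl m v u + wl m v w := by
  have h1 := (wl_tendsto v hb u).add (wl_tendsto v hb w)
  refine tendsto_nhds_unique (wl_tendsto v hb (u + w)) (h1.congr fun n => ?_)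
  rw [← integral_add (weak_int (v n) (hv n) (hb n) u (wl_int u)) (weak_int (v n) (hv n) (hb n) w (wl_int w))]
  refine integral_congr_ae ?_
  filter_upwards [Lp.coeFn_add u w] with x hx
  rw [hx, Pi.add_apply, mul_add]

private theorem wl_smul (v : ℕ → X → ℝ) (hb : ∀ n x, |v n x| ≤ 1) (c : ℝ) (u : Lp ℝ 2 m) :
    wl m v (c • u) = c * wl m v u := by
  have h1 := (wl_tendsto v hb u).const_mul c
  refine tendsto_nhds_unique (wl_tendsto v hb (c • u)) (h1.congr fun n => ?_)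
  rw [← integral_const_mul]
  refine integral_congr_ae ?_
  filter_upwards [Lp.coeFn_smul c u] with x hx
  rw [hx, Pi.smul_apply, smul_eq_mul]
  ring

private theorem wl_le (v : ℕ → X → ℝ) (hb : ∀ n x, |v n x| ≤ 1) (u : Lp ℝ 2 m) : |wl m v u| ≤ ‖u‖ := by
  refine le_trans ?_ (wl_norm u)
  exact le_of_tendsto (wl_tendsto v hb u).abs (Eventually.of_forall fun n => weak_le (v n) (hb n) u (wl_int u))

private noncomputable def wlL (v : ℕ → X → ℝ) (hv : ∀ n, Measurable (v n)) (hb : ∀ n x, |v n x| ≤ 1) :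
    Lp ℝ 2 m →L[ℝ] ℝ :=
  LinearMap.mkContinuous
    { toFun := wl m v
      map_add' := wl_add v hv hb
      map_smul' := fun c u => by rw [wl_smul v hb c u]; rfl } 1 (fun u => by
        rw [one_mul, Real.norm_eq_abs]; exact wl_le v hb u)

/-- the weak limit for square integrable functions -/
private theorem weak_two (v : ℕ → X → ℝ) (hv : ∀ n, Measurable (v n)) (hb : ∀ n x, |v n x| ≤ 1) :
    ∃ D : X → ℝ, Measurable D ∧ Integrable D m ∧
      ∀ u : X → ℝ, MemLp u 2 m → Tendsto (fun n => ∫ x, v n x * u x ∂m) (hyperfilter ℕ) (𝓝 (∫ x, D x * u x ∂m)) := by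
  let D : Lp ℝ 2 m := (InnerProductSpace.toDual ℝ (Lp ℝ 2 m)).symm (wlL v hv hb)
  refine ⟨D, (Lp.stronglyMeasurable D).measurable, wl_int D, fun u hu => ?_⟩
  have h1 := wl_tendsto v hb (hu.toLp u)
  have h2 : wl m v (hu.toLp u) = ∫ x, D x * u x ∂m := by
    have h3 : inner ℝ D (hu.toLp u) = wl m v (hu.toLp u) := by
      have := InnerProductSpace.toDual_symm_apply (𝕜 := ℝ) (x := hu.toLp u) (y := wlL v hv hb)
      exact this
    rw [← h3, L2.inner_def]
    refine integral_congr_ae ?_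
    filter_upwards [hu.coeFn_toLp] with x hx
    rw [hx]
    simp [mul_comm]
  rw [← h2]
  refine h1.congr fun n => ?_
  refine integral_congr_ae ?_
  filter_upwards [hu.coeFn_toLp] with x hx
  rw [hx]

private theorem weak_bdd (v : ℕ → X → ℝ) (hv : ∀ n, Measurable (v n)) (hb : ∀ n x, |v n x| ≤ 1) (D : X → ℝ) (hD : Integrable D m)
    (h : ∀ u : X → ℝ, MemLp u 2 m → Tendsto (fun n => ∫ x, v n x * u x ∂m) (hyperfilter ℕ) (𝓝 (∫ x, D x * u x ∂m))) :
    ∀ᵐ x ∂m, |D x| ≤ 1 := by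
  have hkey : ∀ s : Set X, MeasurableSet s → |∫ x in s, D x ∂m| ≤ ∫ x in s, (1 : ℝ) ∂m := by
    intro s hs
    have hm : MemLp (s.indicator fun _ => (1 : ℝ)) 2 m := memLp_indicator_const 2 hs 1 (Or.inr (measure_ne_top m s))
    have h1 := h _ hm
    have h2 : ∫ x, D x * s.indicator (fun _ => (1 : ℝ)) x ∂m = ∫ x in s, D x ∂m := by
      rw [← integral_indicator hs]
      refine integral_congr_ae (Eventually.of_forall fun x => ?_)
      by_cases hx : x ∈ s <;> simp [hx]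
    have h3 : ∫ x in s, (1 : ℝ) ∂m = ∫ x, |s.indicator (fun _ => (1 : ℝ)) x| ∂m := by
      rw [← integral_indicator hs]
      refine integral_congr_ae (Eventually.of_forall fun x => ?_)
      by_cases hx : x ∈ s <;> simp [hx]
    rw [← h2, h3]
    exact le_of_tendsto h1.abs (Eventually.of_forall fun n => weak_le (v n) (hb n) _ (hm.integrable (by norm_num)))
  have h1 : D ≤ᵐ[m] fun _ => (1 : ℝ) :=
    ae_le_of_forall_setIntegral_le hD (integrable_const _) (fun s hs _ => (le_abs_self _).trans (hkey s hs))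
  have h2 : (fun _ => (-1 : ℝ)) ≤ᵐ[m] D := by
    refine ae_le_of_forall_setIntegral_le (integrable_const _) hD (fun s hs _ => ?_)
    have := (abs_le.1 (hkey s hs)).1
    rwa [← integral_neg] at this
  filter_upwards [h1, h2] with x hx1 hx2
  exact abs_le.2 ⟨hx2, hx1⟩

/-- For `u ∈ L²(m)` let `l(u)` be the limit of `∫ v_n u` along the hyperfilter (a bounded sequence converges along an ultrafilter); `l` is linear, `|l(u)| ≤ ‖u‖₂`: Riesz (`InnerProductSpace.toDual`) gives `D ∈ L²`; `∫_{D > 1} D ≤ m(D > 1)` shows `|D| ≤ 1` a.e.; change `D` on a null set (measurable representative, clamp).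
Integrable `u`: approximate in `L¹` by bounded functions. -/
theorem weak_lim (v : ℕ → X → ℝ) (hv : ∀ n, Measurable (v n)) (hb : ∀ n x, |v n x| ≤ 1) :
    ∃ D : X → ℝ, Measurable D ∧ (∀ x, |D x| ≤ 1) ∧
      ∀ u : X → ℝ, Integrable u m → Tendsto (fun n => ∫ x, v n x * u x ∂m) (hyperfilter ℕ) (𝓝 (∫ x, D x * u x ∂m)) := by
  obtain ⟨D₀, hD₀, hD₀i, hD₀l⟩ := weak_two (m := m) v hv hb
  have hae := weak_bdd v hv hb D₀ hD₀i hD₀l
  let D : X → ℝ := fun x => max (-1) (min 1 (D₀ x))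
  have hDm : Measurable D := measurable_const.max (measurable_const.min hD₀)
  have hDb : ∀ x, |D x| ≤ 1 := fun x => abs_le.2 ⟨le_max_left _ _, max_le (by norm_num) (min_le_left _ _)⟩
  have hDe : D =ᵐ[m] D₀ := by
    filter_upwards [hae] with x hx
    have := abs_le.1 hx
    show max (-1) (min 1 (D₀ x)) = D₀ x
    rw [min_eq_right this.2, max_eq_right this.1]
  have hD2 : ∀ u : X → ℝ, MemLp u 2 m → Tendsto (fun n => ∫ x, v n x * u x ∂m) (hyperfilter ℕ) (𝓝 (∫ x, D x * u x ∂m)) := by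
    intro u hu
    have h1 : ∫ x, D x * u x ∂m = ∫ x, D₀ x * u x ∂m := by
      refine integral_congr_ae ?_
      filter_upwards [hDe] with x hx
      rw [hx]
    rw [h1]
    exact hD₀l u hu
  refine ⟨D, hDm, hDb, fun u hu => ?_⟩
  rw [Metric.tendsto_nhds]
  intro ε hε
  obtain ⟨g, hg, hgm⟩ := (memLp_one_iff_integrable.2 hu).exists_simpleFunc_eLpNorm_sub_lt (by norm_num : (1 : ENNReal) ≠ ⊤)
    (ε := ENNReal.ofReal (ε / 3)) (by simpa using by positivity)
  have hgi : Integrable (g : X → ℝ) m := memLp_one_iff_integrable.1 hgm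
  have hgd : Integrable (fun x => u x - g x) m := hu.sub hgi
  have hd : ∫ x, |u x - g x| ∂m < ε / 3 := by
    have h2 : ∫ x, |u x - g x| ∂m = (eLpNorm (u - ⇑g) 1 m).toReal := by
      have h3 := integral_norm_eq_lintegral_enorm hgd.aestronglyMeasurable
      rw [eLpNorm_one_eq_lintegral_enorm]
      exact h3
    rw [h2]
    have := (ENNReal.toReal_lt_toReal (ne_top_of_lt hg) ENNReal.ofReal_ne_top).2 hg
    rwa [ENNReal.toReal_ofReal (by positivity)] at this
  have hg2 : MemLp (g : X → ℝ) 2 m := by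
    obtain ⟨C, hC⟩ := g.exists_forall_norm_le
    exact MemLp.of_bound g.measurable.aestronglyMeasurable C (Eventually.of_forall hC)
  have h1 := (Metric.tendsto_nhds.1 (hD2 g hg2)) (ε / 3) (by positivity)
  filter_upwards [h1] with n hn
  rw [Real.dist_eq] at hn ⊢
  have e1 : ∫ x, v n x * u x ∂m - ∫ x, v n x * g x ∂m = ∫ x, v n x * (u x - g x) ∂m := by
    rw [← integral_sub (weak_int (v n) (hv n) (hb n) u hu) (weak_int (v n) (hv n) (hb n) g hgi)]
    simp only [mul_sub]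
  have e2 : ∫ x, D x * u x ∂m - ∫ x, D x * g x ∂m = ∫ x, D x * (u x - g x) ∂m := by
    rw [← integral_sub (weak_int D hDm hDb u hu) (weak_int D hDm hDb g hgi)]
    simp only [mul_sub]
  have b1 := weak_le (m := m) (v n) (hb n) _ hgd
  have b2 := weak_le (m := m) D hDb _ hgd
  rw [← e1] at b1
  rw [← e2] at b2
  rw [abs_lt] at hn ⊢
  rw [abs_le] at b1 b2
  constructor <;> linarith [b1.1, b1.2, b2.1, b2.2, hn.1, hn.2]

/-- every sequence of dual functions has a limit -/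
theorem exists_isLim (hτ : IsAct m τ) (k : ℕ) (d : ℕ → X → ℝ) (hd : ∀ H, d H ∈ Dual τ (H + 1) k) :
    ∃ D : X → ℝ, IsLim m τ k D ∧
      ∀ u : X → ℝ, Integrable u m → Tendsto (fun n => ∫ x, d n x * u x ∂m) (hyperfilter ℕ) (𝓝 (∫ x, D x * u x ∂m)) := by
  obtain ⟨D, hD, hb, hl⟩ := weak_lim (m := m) d (fun n => (dual_meas hτ (n + 1) k (d n) (hd n)).1)
    (fun n => (dual_meas hτ (n + 1) k (d n) (hd n)).2)
  exact ⟨D, ⟨hD, hb, d, hd, hl⟩, hl⟩

theorem isLim_succ (hτ : IsAct m τ) (k : ℕ) (D : X → ℝ) (hD : IsLim m τ k D) : IsLim m τ (k + 1) D := by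
  obtain ⟨h1, h2, d, hd, hl⟩ := hD
  exact ⟨h1, h2, d, fun H => dual_succ hτ (H + 1) k (Nat.succ_pos H) (hd H), hl⟩

theorem alg_succ (hτ : IsAct m τ) (k : ℕ) : Alg m τ k ≤ Alg m τ (k + 1) :=
  Algebra.adjoin_mono fun D hD => isLim_succ hτ k D hD

theorem alg_bdd (k : ℕ) : ∀ A ∈ Alg m τ k, Measurable A ∧ ∃ C : ℝ, ∀ x, |A x| ≤ C := by
  intro A hA
  refine Algebra.adjoin_induction (R := ℝ) (s := {D | IsLim m τ k D})
    (p := fun A _ => Measurable A ∧ ∃ C : ℝ, ∀ x, |A x| ≤ C) ?_ ?_ ?_ ?_ hA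
  · intro D hD
    exact ⟨hD.1, 1, hD.2.1⟩
  · intro r
    exact ⟨measurable_const, |r|, fun x => le_rfl⟩
  · rintro f g _ _ ⟨hf, C, hC⟩ ⟨hg, C', hC'⟩
    exact ⟨hf.add hg, C + C', fun x => (abs_add_le _ _).trans (add_le_add (hC x) (hC' x))⟩
  · rintro f g _ _ ⟨hf, C, hC⟩ ⟨hg, C', hC'⟩
    refine ⟨hf.mul hg, C * C', fun x => ?_⟩
    rw [Pi.mul_apply, abs_mul]
    exact mul_le_mul (hC x) (hC' x) (abs_nonneg _) ((abs_nonneg _).trans (hC x))

end

end Pool.Agent.Lib.MP_3e612f_nt.ZE
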